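import Pool.Agent.H606R2.AR.Main

/-!
# Angular resolution `π/3` is `∃ℝ`-complete

The definitions are in `Pool.Agent.H606R2.AR.Defs` (graphs, drawings, angular resolution) and in
`Pool.Agent.ER.Defs` (the existential theory of the reals and the class `∃ℝ`).
-/

namespace Pool.Agent.Results.MP_aca74d_lc.SixtyDegrees

open Pool.Agent.NPC Pool.Agent.NPC.ER Pool.Agent.NPC.ER.AR

/-- Deciding whether a finite graph has a straight-line drawing with angular resolution at least
`π/3` is complete for the existential theory of the reals; moreover every problem of `∃ℝ` reduces to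
it by a polynomial-time reduction whose values `(n, E)` satisfy: `E` is a list of pairs of distinct
numbers smaller than `n`, and `n` is at most the length of `E`. -/
theorem result :
    ERComplete (lang (AR (Real.pi / 3))) ∧
    ∀ L, InER L → ∃ f : List Bool → GCode, PolyTime (fun w => bits (f w)) ∧
      ∀ w, (∀ e ∈ (f w).2, e.1 < (f w).1 ∧ e.2 < (f w).1 ∧ e.1 ≠ e.2) ∧
        (f w).1 ≤ (f w).2.length ∧ (w ∈ L ↔ AR (Real.pi / 3) (f w)) := by
  refine ⟨⟨ar_mem, ar_hard⟩, ?_⟩
  rintro L ⟨g, hg, hL⟩
  have h1 : PC (id : List Bool → List Bool) (bits : Fm → List Bool) g :=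
    Pool.Agent.H642R2.TMSim.polyTime_toPC hg
  have h2 : Pool.Agent.NPC.Poly (fun φ : Fm => red (sysOf φ)) :=
    Pool.Agent.NPC.Poly.comp poly_red (poly_sysOf Pool.Agent.NPC.Poly.id)
  have h3 : PC (id : List Bool → List Bool) (bits : GCode → List Bool)
      (fun x => red (sysOf (g x))) :=
    PC.comp (g := fun φ : Fm => red (sysOf φ)) (eb := (bits : Fm → List Bool)) h2 h1
  have h4 : PC (id : List Bool → List Bool) (id : List Bool → List Bool)
      (fun x => bits (red (sysOf (g x)))) := h3
  refine ⟨fun x => red (sysOf (g x)), PC.toPolyTime h4, fun x => ⟨fun e he => ?_, red_length _, ?_⟩⟩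
  · exact netE_ok (wf_items _) e he
  · rw [hL, ← sat_sysOf, red_correct]

end Pool.Agent.Results.MP_aca74d_lc.SixtyDegrees
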